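import Pool.Agent.helper60.DA.SpecV

/-! Row dv:CST (pure): polynomials over `ZMod p` with vanishing Wronskian. -/

set_option autoImplicit false

namespace Pool.Agent.helper60.DA

open Polynomial Finset Pool.Agent.helper60.DK

theorem CST : CST_stmt := by
  intro p hp T P hP hdeg hno hW
  classical
  have hp0 : p ≠ 0 := hp.out.ne_zero
  have hdvd : P ∣ T := by
    obtain ⟨d, hd⟩ : ∃ d, d = EuclideanDomain.gcd T P := ⟨_, rfl⟩
    have hd0 : d ≠ 0 := by
      rw [hd]
      intro h
      exact hP (EuclideanDomain.gcd_eq_zero_iff.mp h).2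
    obtain ⟨θ, hθ⟩ : d ∣ T := by rw [hd]; exact EuclideanDomain.gcd_dvd_left T P
    obtain ⟨π, hπ⟩ : d ∣ P := by rw [hd]; exact EuclideanDomain.gcd_dvd_right T P
    have hco : IsCoprime θ π := by
      have h1 := EuclideanDomain.gcd_eq_gcd_ab T P
      rw [← hd] at h1
      refine ⟨EuclideanDomain.gcdA T P, EuclideanDomain.gcdB T P, ?_⟩
      apply mul_left_cancel₀ hd0
      rw [mul_one]
      calc d * (EuclideanDomain.gcdA T P * θ + EuclideanDomain.gcdB T P * π)
          = (d * θ) * EuclideanDomain.gcdA T P + (d * π) * EuclideanDomain.gcdB T P := by ring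
        _ = T * EuclideanDomain.gcdA T P + P * EuclideanDomain.gcdB T P := by rw [← hθ, ← hπ]
        _ = d := h1.symm
    have hW' : derivative θ * π = θ * derivative π := by
      have h1 : derivative T * P - T * derivative P
          = d ^ 2 * (derivative θ * π - θ * derivative π) := by
        rw [hθ, hπ, derivative_mul, derivative_mul]
        ring
      rw [hW, sub_self] at h1
      exact sub_eq_zero.mp ((mul_eq_zero.mp h1.symm).resolve_left (pow_ne_zero 2 hd0))
    have hπ0 : π ≠ 0 := by
      rintro rfl
      rw [mul_zero] at hπ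
      exact hP hπ
    have hdv : π ∣ derivative π := by
      have h1 : π ∣ θ * derivative π := ⟨derivative θ, by rw [← hW', mul_comm]⟩
      exact hco.symm.dvd_of_dvd_mul_left h1
    have hder : derivative π = 0 := by
      by_contra hne
      have h1 := natDegree_le_of_dvd hdv hne
      have h2 : π.natDegree ≠ 0 := by
        intro h
        apply hne
        rw [eq_C_of_natDegree_eq_zero h, derivative_C]
      have h3 : (derivative π).natDegree < π.natDegree := natDegree_derivative_lt h2
      omega
    have hexp := expand_contract p hder hp0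
    rw [ZMod.expand_card] at hexp
    obtain ⟨q, hq⟩ : ∃ q, q = contract p π := ⟨_, rfl⟩
    rw [← hq] at hexp
    have hπP : π.natDegree ≤ P.natDegree := by
      refine natDegree_le_of_dvd ⟨d, ?_⟩ hP
      rw [hπ, mul_comm]
    have hqd : q.natDegree < 2 := by
      have h1 : (q ^ p).natDegree = p * q.natDegree := natDegree_pow q p
      rw [hexp] at h1
      have h2 : p * q.natDegree < p * 2 := by
        rw [← h1, mul_comm p 2]
        exact lt_of_le_of_lt hπP hdeg
      exact lt_of_mul_lt_mul_left h2 (Nat.zero_le p)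
    have hq0 : q ≠ 0 := by
      intro h
      rw [h, zero_pow hp0] at hexp
      exact hπ0 hexp.symm
    have hqc : q.natDegree = 0 := by
      by_contra hne
      have h1 : q.natDegree = 1 := by omega
      have hroot : ∃ r, q.IsRoot r := by
        refine exists_root_of_degree_eq_one ?_
        rw [degree_eq_natDegree hq0, h1]
        rfl
      obtain ⟨r, hr⟩ := hroot
      have h2 : (X - C r) ∣ q := dvd_iff_isRoot.mpr hr
      have h3 : (X - C r) ^ p ∣ π := by
        rw [← hexp]
        exact pow_dvd_pow_of_dvd h2 p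
      refine hno r (h3.trans ⟨d, ?_⟩)
      rw [hπ, mul_comm]
    rw [eq_C_of_natDegree_eq_zero hqc, ← C_pow] at hexp
    have hu : (q.coeff 0) ^ p ≠ 0 := by
      intro h
      rw [h, C_0] at hexp
      exact hπ0 hexp.symm
    refine ⟨C ((q.coeff 0 ^ p)⁻¹) * θ, ?_⟩
    rw [hπ, ← hexp]
    calc T = d * θ := hθ
      _ = d * C (q.coeff 0 ^ p * (q.coeff 0 ^ p)⁻¹) * θ := by
          rw [mul_inv_cancel₀ hu, C_1, mul_one]
      _ = d * C (q.coeff 0 ^ p) * (C ((q.coeff 0 ^ p)⁻¹) * θ) := by
          rw [C_mul]; ring
  obtain ⟨c, hc⟩ := hdvd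
  have hc' : derivative c = 0 := by
    have h1 : derivative T * P - T * derivative P = derivative c * P ^ 2 := by
      rw [hc, derivative_mul]
      ring
    rw [hW, sub_self] at h1
    exact (mul_eq_zero.mp h1.symm).resolve_right (pow_ne_zero 2 hP)
  refine ⟨contract p c, ?_⟩
  rw [expand_contract p hc' hp0, hc, mul_comm]

end Pool.Agent.helper60.DA
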