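import Pool.Agent.helper60.DA.SpecW

/-! Row dw:VM: the value of `V2` at `-1`. -/

set_option autoImplicit false

namespace Pool.Agent.helper60.DA

open Polynomial Finset Pool.Agent.helper60.DK

theorem VM_Sz (p : ℕ) : (Sz p).eval (-1) = (p : ℤ) := by
  unfold Sz
  rw [eval_finset_sum]
  have h : ∀ k ∈ range p, ((-1 : ℤ[X]) ^ k * Dz k ^ 3).eval (-1) = 1 := by
    intro k _
    have h1 : ((-1 : ℤ[X]) ^ k).eval (-1) = (-1) ^ k := by
      rw [eval_pow, eval_neg, eval_one]
    rw [eval_mul, h1, eval_pow, Dz_eval_neg_one, ← pow_mul, ← pow_add]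
    have e : k + k * 3 = 2 * (2 * k) := by ring
    rw [e, pow_mul]
    norm_num
  rw [sum_congr rfl h, sum_const, card_range]
  simp

theorem VM (hST : ST_stmt) (hM3 : M3_stmt) : VM_stmt := by
  intro p hp h7 hm V2 hV
  have h5 : 5 ≤ p := by omega
  obtain ⟨Z, hZ⟩ := hST p h5
  have hSt : (St p).eval (-1) = (p : ℤ) - (p : ℤ) ^ 2 * Z.eval (-1) := by
    have h1 := congrArg (fun f : ℤ[X] => f.eval (-1)) hZ
    simp only [eval_add, eval_mul, eval_C] at h1
    rw [VM_Sz] at h1
    linarith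
  have hh0 : hh p ≠ 0 := by
    unfold hh
    omega
  have h2 := congrArg (fun f : ℤ[X] => f.eval (-1)) hV
  simp only [eval_add, eval_mul, eval_pow, eval_C, eval_one, eval_X, eval_ofNat] at h2
  have e1 : (1 : ℤ) + -1 = 0 := by norm_num
  have e2 : (1 : ℤ) + 4 * -1 = -3 := by norm_num
  rw [e1, e2, zero_pow hh0, zero_mul, hSt] at h2
  have hp0 : (p : ℤ) ≠ 0 := by exact_mod_cast hp.out.ne_zero
  have h3 : (-3 : ℤ) ^ hh p * (1 - (p : ℤ) * Z.eval (-1)) + V2.eval (-1) = 0 := by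
    apply mul_left_cancel₀ hp0
    rw [mul_zero]
    linarith
  have h4 := congrArg (fun z : ℤ => (z : ZMod p)) h3
  simp only [Int.cast_add, Int.cast_mul, Int.cast_pow, Int.cast_neg, Int.cast_ofNat, Int.cast_sub,
    Int.cast_one, Int.cast_natCast, CharP.cast_eq_zero, zero_mul, sub_zero, mul_one,
    Int.cast_zero] at h4
  rw [hM3 p h5 hm] at h4
  have h5 : (red p V2).eval (-1) = ((V2.eval (-1) : ℤ) : ZMod p) := by
    have h6 := eval_intCast_map (Int.castRingHom (ZMod p)) V2 (-1)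
    rw [Int.cast_neg, Int.cast_one] at h6
    exact h6
  rw [h5]
  linear_combination h4

end Pool.Agent.helper60.DA
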